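import Pool.Agent.Helper48.RE.LowerDefs

/-!
# Counting vertices and edges of a union of copies of a balanced rooted graph
-/

set_option autoImplicit false
set_option linter.unusedSectionVars false

namespace Pool.Agent.Helper93.RE

open Finset Pool.Agent.Helper97.RE

section
variable {V A J : Type} [Fintype V] [DecidableEq V] [DecidableEq A] [DecidableEq J]
  (T : SimpleGraph V) (root : V → Prop) (σ : V → Bool) (z : J → V → A)

open Classical in
/-- vertices -/
noncomputable def XX (J' : Finset J) : Finset (Bool × A) :=
  J'.biUnion (fun j => (Finset.univ.filter (fun a => ¬ root a)).image (fun a => (σ a, z j a)))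

open Classical in
/-- oriented edges with a property -/
noncomputable def oE (P : V → V → Prop) : Finset (V × V) :=
  Finset.univ.filter (fun e : V × V => T.Adj e.1 e.2 ∧ σ e.1 = false ∧ σ e.2 = true ∧ P e.1 e.2)

theorem mem_oE (P : V → V → Prop) (e : V × V) : e ∈ oE T σ P ↔
    T.Adj e.1 e.2 ∧ σ e.1 = false ∧ σ e.2 = true ∧ P e.1 e.2 := by
  classical
  unfold oE
  rw [Finset.mem_filter]
  simp

/-- edges touching the non-roots -/
noncomputable def YY (J' : Finset J) : Finset (A × A) :=
  J'.biUnion (fun j => (oE T σ (fun a b => ¬ root a ∨ ¬ root b)).image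
    (fun e => (z j e.1, z j e.2)))

theorem touch_le (hσ : ∀ a b, T.Adj a b → σ a ≠ σ b) (S : Finset V) :
    touch T S ≤ (oE T σ (fun a b => a ∈ S ∨ b ∈ S)).card := by
  classical
  have hex : ∀ e : {e : Sym2 V // e ∈ T.edgeSet ∧ ∃ x ∈ S, x ∈ e},
      ∃ f : V × V, s(f.1, f.2) = e.1 ∧ f ∈ oE T σ (fun a b => a ∈ S ∨ b ∈ S) := by
    rintro ⟨e, he, x, hx, hxe⟩
    induction e using Sym2.ind with
    | _ a b =>
      rw [SimpleGraph.mem_edgeSet] at he
      rw [Sym2.mem_iff] at hxe
      have hne := hσ a b he
      rcases h1 : σ a with _ | _
      · have h2 : σ b = true := by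
          cases h3 : σ b
          · rw [h1, h3] at hne; exact absurd rfl hne
          · rfl
        refine ⟨(a, b), rfl, ?_⟩
        rw [mem_oE]
        refine ⟨he, h1, h2, ?_⟩
        rcases hxe with rfl | rfl
        · exact Or.inl hx
        · exact Or.inr hx
      · have h2 : σ b = false := by
          cases h3 : σ b
          · rfl
          · rw [h1, h3] at hne; exact absurd rfl hne
        refine ⟨(b, a), Sym2.eq_swap, ?_⟩
        rw [mem_oE]
        refine ⟨he.symm, h2, h1, ?_⟩
        rcases hxe with rfl | rfl
        · exact Or.inr hx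
        · exact Or.inl hx
  choose f hf1 hf2 using hex
  unfold touch
  have hinj : Function.Injective (fun e : {e : Sym2 V // e ∈ T.edgeSet ∧ ∃ x ∈ S, x ∈ e} =>
      (⟨f e, hf2 e⟩ : oE T σ (fun a b => a ∈ S ∨ b ∈ S))) := by
    intro e e' h
    have h' : f e = f e' := congrArg Subtype.val h
    apply Subtype.ext
    rw [← hf1 e, ← hf1 e', h']
  have := Nat.card_le_card_of_injective _ hinj
  rwa [Nat.card_eq_fintype_card (α := oE T σ (fun a b => a ∈ S ∨ b ∈ S)), Fintype.card_coe] at this

theorem balance_count (d v : ℕ)
    (hbal : ∀ S : Finset V, (∀ x ∈ S, ¬ root x) → d * S.card ≤ v * touch T S)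
    (hσ : ∀ a b, T.Adj a b → σ a ≠ σ b)
    (hinj : ∀ j a b, a ≠ b → σ a = σ b → z j a ≠ z j b)
    (hroot : ∀ j j' a, root a → z j a = z j' a) (J' : Finset J) :
    d * (XX root σ z J').card ≤ v * (YY T root σ z J').card := by
  classical
  induction J' using Finset.induction_on with
  | empty => simp [XX, YY]
  | insert j J' hj ih =>
    set S : Finset V := Finset.univ.filter (fun a => ¬ root a ∧ (σ a, z j a) ∉ XX root σ z J')
      with hS
    have hSroot : ∀ x ∈ S, ¬ root x := by
      intro x hx
      rw [hS, Finset.mem_filter] at hx
      exact hx.2.1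
    have h1 : (XX root σ z (insert j J')).card ≤ (XX root σ z J').card + S.card := by
      have hsub : XX root σ z (insert j J') ⊆
          XX root σ z J' ∪ S.image (fun a => (σ a, z j a)) := by
        intro x hx
        rw [Finset.mem_union]
        by_cases hx' : x ∈ XX root σ z J'
        · exact Or.inl hx'
        · right
          unfold XX at hx
          rw [Finset.biUnion_insert, Finset.mem_union] at hx
          rcases hx with hx | hx
          · obtain ⟨a, ha, rfl⟩ := Finset.mem_image.1 hx
            refine Finset.mem_image.2 ⟨a, ?_, rfl⟩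
            rw [hS, Finset.mem_filter]
            exact ⟨Finset.mem_univ _, (Finset.mem_filter.1 ha).2, hx'⟩
          · exact absurd hx hx'
      calc (XX root σ z (insert j J')).card ≤ (XX root σ z J' ∪ S.image (fun a => (σ a, z j a))).card
            := Finset.card_le_card hsub
        _ ≤ (XX root σ z J').card + (S.image (fun a => (σ a, z j a))).card :=
            Finset.card_union_le _ _
        _ ≤ (XX root σ z J').card + S.card := by
            have := Finset.card_image_le (s := S) (f := fun a => (σ a, z j a))
            omega
    have h2 : (YY T root σ z J').card + touch T S ≤ (YY T root σ z (insert j J')).card := by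
      have hdis : Disjoint (YY T root σ z J')
          ((oE T σ (fun a b => a ∈ S ∨ b ∈ S)).image (fun e => (z j e.1, z j e.2))) := by
        rw [Finset.disjoint_left]
        intro x hx hx'
        obtain ⟨⟨a, b⟩, hab, rfl⟩ := Finset.mem_image.1 hx'
        rw [mem_oE] at hab
        obtain ⟨hadj, hσa, hσb, hab⟩ := hab
        dsimp only at hadj hσa hσb hab
        unfold YY at hx
        rw [Finset.mem_biUnion] at hx
        obtain ⟨j', hj', hx⟩ := hx
        obtain ⟨⟨a', b'⟩, hab', he⟩ := Finset.mem_image.1 hx
        rw [mem_oE] at hab'
        obtain ⟨hadj', hσa', hσb', hab'⟩ := hab'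
        dsimp only at hadj' hσa' hσb' hab' he
        rw [Prod.mk.injEq] at he
        obtain ⟨hea, heb⟩ := he
        have key : ∀ u u' : V, σ u = σ u' → z j' u' = z j u → u ∈ S → False := by
          intro u u' hs hz hu
          rw [hS, Finset.mem_filter] at hu
          obtain ⟨-, hu1, hu2⟩ := hu
          by_cases hr : root u'
          · have h3 : z j u' = z j u := by
              rw [hroot j j' u' hr, hz]
            by_cases hne : u' = u
            · rw [hne] at hr
              exact hu1 hr
            · exact hinj j u' u hne hs.symm h3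
          · apply hu2
            unfold XX
            rw [Finset.mem_biUnion]
            refine ⟨j', hj', Finset.mem_image.2 ⟨u', ?_, ?_⟩⟩
            · rw [Finset.mem_filter]
              exact ⟨Finset.mem_univ _, hr⟩
            · rw [hs, hz]
        rcases hab with h | h
        · exact key a a' (by rw [hσa, hσa']) hea h
        · exact key b b' (by rw [hσb, hσb']) heb h
      have hsub : YY T root σ z J' ∪
          ((oE T σ (fun a b => a ∈ S ∨ b ∈ S)).image (fun e => (z j e.1, z j e.2))) ⊆
          YY T root σ z (insert j J') := by
        intro x hx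
        unfold YY
        rw [Finset.biUnion_insert, Finset.mem_union]
        rcases Finset.mem_union.1 hx with hx | hx
        · exact Or.inr hx
        · left
          obtain ⟨⟨a, b⟩, hab, rfl⟩ := Finset.mem_image.1 hx
          refine Finset.mem_image.2 ⟨(a, b), ?_, rfl⟩
          rw [mem_oE] at hab ⊢
          refine ⟨hab.1, hab.2.1, hab.2.2.1, ?_⟩
          rcases hab.2.2.2 with h | h
          · exact Or.inl (hSroot _ h)
          · exact Or.inr (hSroot _ h)
      have hcard : ((oE T σ (fun a b => a ∈ S ∨ b ∈ S)).image
          (fun e => (z j e.1, z j e.2))).card = (oE T σ (fun a b => a ∈ S ∨ b ∈ S)).card := by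
        apply Finset.card_image_of_injOn
        rintro ⟨a, b⟩ hab ⟨a', b'⟩ hab' he
        rw [Finset.mem_coe] at hab hab'
        rw [mem_oE] at hab hab'
        obtain ⟨hadj, hσa, hσb, -⟩ := hab
        obtain ⟨hadj', hσa', hσb', -⟩ := hab'
        dsimp only at hadj hσa hσb hadj' hσa' hσb' he
        rw [Prod.mk.injEq] at he
        obtain ⟨hea, heb⟩ := he
        have h3 : a = a' := by
          by_contra hne
          exact hinj j a a' hne (by rw [hσa, hσa']) hea
        have h4 : b = b' := by
          by_contra hne
          exact hinj j b b' hne (by rw [hσb, hσb']) heb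
        rw [h3, h4]
      calc (YY T root σ z J').card + touch T S ≤
            (YY T root σ z J').card + (oE T σ (fun a b => a ∈ S ∨ b ∈ S)).card :=
            Nat.add_le_add_left (touch_le T σ hσ S) _
        _ = (YY T root σ z J' ∪ ((oE T σ (fun a b => a ∈ S ∨ b ∈ S)).image
              (fun e => (z j e.1, z j e.2)))).card := by
            rw [Finset.card_union_of_disjoint hdis, hcard]
        _ ≤ _ := Finset.card_le_card hsub
    calc d * (XX root σ z (insert j J')).card ≤ d * ((XX root σ z J').card + S.card) :=
          Nat.mul_le_mul_left _ h1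
      _ = d * (XX root σ z J').card + d * S.card := by ring
      _ ≤ v * (YY T root σ z J').card + v * touch T S := Nat.add_le_add ih (hbal S hSroot)
      _ = v * ((YY T root σ z J').card + touch T S) := by ring
      _ ≤ v * (YY T root σ z (insert j J')).card := Nat.mul_le_mul_left _ h2

theorem YY_card_le (J' : Finset J) :
    (YY T root σ z J').card ≤ J'.card * Fintype.card V ^ 2 := by
  classical
  unfold YY
  calc (J'.biUnion (fun j => (oE T σ (fun a b => ¬ root a ∨ ¬ root b)).image
    (fun e => (z j e.1, z j e.2)))).card ≤ ∑ j ∈ J', ((oE T σ (fun a b => ¬ root a ∨ ¬ root b)).image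
    (fun e => (z j e.1, z j e.2))).card := Finset.card_biUnion_le
    _ ≤ ∑ j ∈ J', Fintype.card V ^ 2 := by
        apply Finset.sum_le_sum
        intro j _
        refine Finset.card_image_le.trans ?_
        refine (Finset.card_le_univ _).trans ?_
        rw [Fintype.card_prod, sq]
    _ = J'.card * Fintype.card V ^ 2 := by simp

end

end Pool.Agent.Helper93.RE
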