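import Pool.Agent.Helper93.RE.Temp
import Pool.Agent.Helper93.RE.Balance

/-!
# Few parameters have copies through `s` prescribed values of one coordinate
-/

set_option autoImplicit false
set_option linter.unusedSectionVars false
set_option linter.unusedVariables false

namespace Pool.Agent.Helper93.RE

open Finset Pool.Agent.Helper97.RE

section pattern
variable {V : Type} [Fintype V] [DecidableEq V] (root : V → Prop) {d s p : ℕ} [Fact p.Prime]

open Classical in
/-- representatives of the classes of non-roots -/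
noncomputable def NR (ρ : Fin s × V → Fin s × V) : Finset (Fin s × V) :=
  (Finset.univ.filter (fun q : Fin s × V => ¬ root q.2)).image ρ

open Classical in
/-- the free coordinates -/
noncomputable def kF (d : ℕ) (a0 : V) (i0 : Fin d) (ρ : Fin s × V → Fin s × V) :
    Finset ((Fin s × V) × Fin d) :=
  (NR root ρ ×ˢ Finset.univ) \ (Finset.univ.image (fun j : Fin s => (ρ (j, a0), i0)))

open Classical in
/-- the template of the vertices -/
noncomputable def tau (r : V → Fin d → ZMod p) (a0 : V) (i0 : Fin d) (t : Fin s → ZMod p)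
    (ρ : Fin s × V → Fin s × V) (q : Fin s × V) (i : Fin d) : (kF root d a0 i0 ρ) ⊕ ZMod p :=
  if root q.2 then Sum.inr (r q.2 i)
  else if h : ∃ j, (ρ q, i) = (ρ (j, a0), i0) then Sum.inr (t h.choose)
  else if h2 : (ρ q, i) ∈ kF root d a0 i0 ρ then Sum.inl ⟨(ρ q, i), h2⟩
  else Sum.inr 0

/-- the template of the edges -/
noncomputable def tmpl (r : V → Fin d → ZMod p) (a0 : V) (i0 : Fin d) (t : Fin s → ZMod p)
    (ρ : Fin s × V → Fin s × V) (Sel : Finset (Fin s × (V × V))) (e : Sel) :
    (Fin d ⊕ Fin d) → (kF root d a0 i0 ρ) ⊕ ZMod p :=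
  Sum.elim (tau root r a0 i0 t ρ (e.1.1, e.1.2.1)) (tau root r a0 i0 t ρ (e.1.1, e.1.2.2))

end pattern

theorem cT_mono {D v i n n' k k' : ℕ} (hn : n ≤ n') (hk : k ≤ k') :
    cT D v i n k ≤ cT D v i n' k' := by
  unfold cT
  apply Nat.mul_le_mul
  · exact Nat.pow_le_pow_right (Nat.pos_of_ne_zero (by positivity)) hn
  · have h1 : v * n * degB D i n ≤ v * n' * degB D i n' := by
      unfold degB
      exact Nat.mul_le_mul (Nat.mul_le_mul_left _ hn)
        (Nat.mul_le_mul_right _ (by omega))
    calc (v * n * degB D i n + 1) ^ k ≤ (v * n' * degB D i n' + 1) ^ k :=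
          Nat.pow_le_pow_left (by omega) k
      _ ≤ (v * n' * degB D i n' + 1) ^ k' := Nat.pow_le_pow_right (by omega) hk

section cover
variable {V : Type} [Fintype V] [DecidableEq V] (T : SimpleGraph V) (root : V → Prop)
  {d v s p D : ℕ} [Fact p.Prime] {K : Type} [Field K] [Algebra (ZMod p) K]

/-- the structure of a tuple of copies -/
theorem exists_data
    (hbal : ∀ S : Finset V, (∀ x ∈ S, ¬ root x) → d * S.card ≤ v * touch T S)
    (hD : s * Fintype.card V ^ 2 ≤ D)
    (σ : V → Bool) (hσ : ∀ a b, T.Adj a b → σ a ≠ σ b) (r : V → Fin d → ZMod p) (a0 : V)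
    (i0 : Fin d) (ha0 : ¬ root a0) (t : Fin s → ZMod p) (ht : Function.Injective t)
    (c : Par D d v p) (y : Fin s → V → Fin d → K)
    (hy : ∀ j, IsCopy T root K c σ r (y j))
    (hy0 : ∀ j, y j a0 i0 = algebraMap (ZMod p) K (t j)) :
    ∃ (ρ : Fin s × V → Fin s × V) (Sel : Finset (Fin s × (V × V))),
      (kF root d a0 i0 ρ).card + s ≤ v * Sel.card ∧ Sel.card ≤ D + 1 ∧
      ∃ x : kF root d a0 i0 ρ → K, Function.Injective (pt (tmpl root r a0 i0 t ρ Sel) x) ∧
        ∀ l i, ∑ α, algebraMap (ZMod p) K (c l α) *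
          mon D (pt (tmpl root r a0 i0 t ρ Sel) x) α i = 0 := by
  classical
  -- classes
  set F : Fin s × V → Bool × (Fin d → K) := fun q => (σ q.2, y q.1 q.2) with hF
  let G : (b : Bool × (Fin d → K)) → (∃ q, F q = b) → Fin s × V := fun b h => h.choose
  have hG : ∀ b h, F (G b h) = b := fun b h => h.choose_spec
  set ρ : Fin s × V → Fin s × V := fun q => G (F q) ⟨q, rfl⟩ with hρ
  have hρ1 : ∀ q, F (ρ q) = F q := fun q => hG _ _
  have hρ2 : ∀ q q', F q = F q' → ρ q = ρ q' := by
    have : ∀ b b' (hb : b = b') h h', G b h = G b' h' := by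
      rintro b _ rfl h h'
      rfl
    intro q q' h
    exact this _ _ h _ _
  have hy1 : ∀ q, y (ρ q).1 (ρ q).2 = y q.1 q.2 := fun q => congrArg Prod.snd (hρ1 q)
  -- distinct edge points
  set A0 : Finset (Fin s × (V × V)) :=
    Finset.univ ×ˢ (oE T σ (fun a b => ¬ root a ∨ ¬ root b)) with hA0
  set fe : Fin s × (V × V) → (Fin d → K) × (Fin d → K) :=
    fun e => (y e.1 e.2.1, y e.1 e.2.2) with hfe
  obtain ⟨Sel, hSel1, hSel2, hSel3⟩ :=
    Finset.exists_subset_injOn_image_eq_of_surjOn (A0 : Set (Fin s × (V × V))) (A0.image fe)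
      (f := fe) (by
        intro w hw
        rw [Finset.coe_image] at hw
        exact hw)
  have hYY : A0.image fe = YY T root σ y Finset.univ := by
    ext w
    unfold YY
    simp only [hA0, hfe, Finset.mem_image, Finset.mem_product, Finset.mem_biUnion,
      Finset.mem_univ, true_and]
    constructor
    · rintro ⟨⟨j, e⟩, he, rfl⟩
      exact ⟨j, e, he, rfl⟩
    · rintro ⟨j, e, he, rfl⟩
      exact ⟨(j, e), he, rfl⟩
  have hSelcard : Sel.card = (YY T root σ y Finset.univ).card := by
    rw [← hYY, ← hSel3, Finset.card_image_of_injOn hSel2]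
  -- balance
  have hb := balance_count T root σ y d v hbal hσ (fun j a b hab hs => (hy j).2.2 a b hab hs)
    (fun j j' a ha => by
      funext i
      rw [(hy j).1 a ha i, (hy j').1 a ha i]) Finset.univ
  have hNR : (NR root ρ).card ≤ (XX root σ y Finset.univ).card := by
    apply Finset.card_le_card_of_injOn F
    · intro q hq
      rw [Finset.mem_coe] at hq
      unfold NR at hq
      obtain ⟨q', hq', rfl⟩ := Finset.mem_image.1 hq
      rw [Finset.mem_coe, hρ1]
      unfold XX
      rw [Finset.mem_biUnion]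
      refine ⟨q'.1, Finset.mem_univ _, Finset.mem_image.2 ⟨q'.2, ?_, rfl⟩⟩
      rw [Finset.mem_filter]
      exact ⟨Finset.mem_univ _, (Finset.mem_filter.1 hq').2⟩
    · intro q hq q' hq' h
      rw [Finset.mem_coe] at hq hq'
      unfold NR at hq hq'
      obtain ⟨u, hu, rfl⟩ := Finset.mem_image.1 hq
      obtain ⟨u', hu', rfl⟩ := Finset.mem_image.1 hq'
      rw [hρ1, hρ1] at h
      exact hρ2 _ _ h
  have himg : (Finset.univ.image (fun j : Fin s => (ρ (j, a0), i0))).card = s := by
    rw [Finset.card_image_of_injective, Finset.card_univ, Fintype.card_fin]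
    intro j j' h
    have h1 : ρ (j, a0) = ρ (j', a0) := congrArg Prod.fst h
    have h2 : y j a0 = y j' a0 := by
      rw [← hy1 (j, a0), ← hy1 (j', a0), h1]
    have h3 := congrFun h2 i0
    rw [hy0, hy0] at h3
    exact ht ((algebraMap (ZMod p) K).injective h3)
  have hsubimg : Finset.univ.image (fun j : Fin s => (ρ (j, a0), i0)) ⊆
      NR root ρ ×ˢ Finset.univ := by
    intro w hw
    obtain ⟨j, _, rfl⟩ := Finset.mem_image.1 hw
    rw [Finset.mem_product]
    refine ⟨?_, Finset.mem_univ _⟩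
    unfold NR
    refine Finset.mem_image.2 ⟨(j, a0), ?_, rfl⟩
    rw [Finset.mem_filter]
    exact ⟨Finset.mem_univ _, ha0⟩
  have hkF : (kF root d a0 i0 ρ).card + s = d * (NR root ρ).card := by
    unfold kF
    have h1 := Finset.card_sdiff_add_card_eq_card hsubimg
    rw [himg, Finset.card_product, Finset.card_univ, Fintype.card_fin] at h1
    rw [mul_comm d]
    exact h1
  -- the value of the template
  set x : kF root d a0 i0 ρ → K := fun w => y w.1.1.1 w.1.1.2 w.1.2 with hx
  have hval : ∀ (q : Fin s × V) (i : Fin d),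
      Sum.elim x (algebraMap (ZMod p) K) (tau root r a0 i0 t ρ q i) = y q.1 q.2 i := by
    intro q i
    unfold tau
    split_ifs with h1 h2 h3
    · rw [Sum.elim_inr]
      exact ((hy q.1).1 q.2 h1 i).symm
    · rw [Sum.elim_inr]
      have h4 := h2.choose_spec
      set j := h2.choose
      rw [Prod.mk.injEq] at h4
      rw [← hy0 j, ← hy1 q, h4.1, hy1 (j, a0), h4.2]
    · rw [Sum.elim_inl]
      change y (ρ q).1 (ρ q).2 i = _
      rw [hy1]
    · exfalso
      apply h3
      unfold kF
      rw [Finset.mem_sdiff, Finset.mem_product]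
      refine ⟨⟨?_, Finset.mem_univ _⟩, ?_⟩
      · unfold NR
        refine Finset.mem_image.2 ⟨q, ?_, rfl⟩
        rw [Finset.mem_filter]
        exact ⟨Finset.mem_univ _, h1⟩
      · intro h5
        obtain ⟨j, _, hj⟩ := Finset.mem_image.1 h5
        exact h2 ⟨j, hj.symm⟩
  have hpt : ∀ e : Sel, pt (tmpl root r a0 i0 t ρ Sel) x e =
      Sum.elim (y e.1.1 e.1.2.1) (y e.1.1 e.1.2.2) := by
    intro e
    funext u
    unfold pt tmpl
    rcases u with u | u
    · rw [Sum.elim_inl (f := tau root r a0 i0 t ρ (e.1.1, e.1.2.1))]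
      exact hval (e.1.1, e.1.2.1) u
    · rw [Sum.elim_inr (g := tau root r a0 i0 t ρ (e.1.1, e.1.2.2))]
      exact hval (e.1.1, e.1.2.2) u
  refine ⟨ρ, Sel, ?_, ?_, x, ?_, ?_⟩
  · rw [hkF, hSelcard]
    exact (Nat.mul_le_mul_left _ hNR).trans hb
  · rw [hSelcard]
    have h1 := YY_card_le T root σ y Finset.univ
    rw [Finset.card_univ, Fintype.card_fin] at h1
    omega
  · intro e e' h
    rw [hpt, hpt] at h
    apply Subtype.ext
    apply hSel2 e.2 e'.2
    rw [hfe]
    refine Prod.ext ?_ ?_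
    · funext u
      exact congrFun h (Sum.inl u)
    · funext u
      exact congrFun h (Sum.inr u)
  · intro l e
    have he : e.1 ∈ A0 := hSel1 e.2
    rw [hA0, Finset.mem_product, mem_oE] at he
    have h1 := (hy e.1.1).2.1 e.1.2.1 e.1.2.2 he.2.1 he.2.2.1 he.2.2.2.1 l
    rw [← h1]
    apply Finset.sum_congr rfl
    intro α _
    congr 1
    unfold mon
    rw [hpt]

end cover

end Pool.Agent.Helper93.RE

namespace Pool.Agent.Helper97.RE

open Finset Pool.Agent.Helper93.RE

/-- A2': few parameters `c` have copies through `s` prescribed values of one coordinate. -/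
theorem codim {V : Type} [Fintype V] (T : SimpleGraph V) (root : V → Prop) (d v : ℕ)
    (hbal : ∀ S : Finset V, (∀ x ∈ S, ¬ root x) → d * S.card ≤ v * touch T S) (s : ℕ) :
    ∃ D0 : ℕ, ∀ D, D0 ≤ D → ∃ C : ℕ, ∀ (p : ℕ) [Fact p.Prime] (σ : V → Bool),
      (∀ a b, T.Adj a b → σ a ≠ σ b) → ∀ (r : V → Fin d → ZMod p) (a0 : V) (i0 : Fin d),
      ¬ root a0 → ∀ t : Fin s → ZMod p, Function.Injective t →
      p ^ s * Nat.card {c : Par D d v p // ∀ j : Fin s, ∃ y : V → Fin d → AlgebraicClosure (ZMod p),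
        IsCopy T root (AlgebraicClosure (ZMod p)) c σ r y ∧ y a0 i0 = algebraMap _ _ (t j)} ≤
      C * Fintype.card (Par D d v p) := by
  classical
  refine ⟨s * Fintype.card V ^ 2, fun D hD =>
    ⟨Fintype.card ((Fin s × V → Fin s × V) × Finset (Fin s × (V × V))) *
      cT D v (Fintype.card (Fin d ⊕ Fin d)) (Fintype.card (Fin s × (V × V)))
        (Fintype.card ((Fin s × V) × Fin d)), ?_⟩⟩
  intro p _ σ hσ r a0 i0 ha0 t ht
  set K := AlgebraicClosure (ZMod p)
  set C0 := cT D v (Fintype.card (Fin d ⊕ Fin d)) (Fintype.card (Fin s × (V × V)))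
        (Fintype.card ((Fin s × V) × Fin d)) with hC0
  set Bad : Finset (Par D d v p) := Finset.univ.filter (fun c => ∀ j : Fin s,
    ∃ y : V → Fin d → K, IsCopy T root K c σ r y ∧ y a0 i0 = algebraMap _ _ (t j)) with hBad
  have hcard : Nat.card {c : Par D d v p // ∀ j : Fin s, ∃ y : V → Fin d → K,
        IsCopy T root K c σ r y ∧ y a0 i0 = algebraMap _ _ (t j)} = Bad.card := by
    rw [Nat.card_eq_fintype_card, Fintype.card_subtype]
  rw [hcard]
  set Bd : ((Fin s × V → Fin s × V) × Finset (Fin s × (V × V))) → Finset (Par D d v p) :=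
    fun δ => Finset.univ.filter (fun c =>
      ((kF root d a0 i0 δ.1).card + s ≤ v * δ.2.card ∧ δ.2.card ≤ D + 1) ∧
      ∃ x : kF root d a0 i0 δ.1 → K, Function.Injective (pt (tmpl root r a0 i0 t δ.1 δ.2) x) ∧
        ∀ l i, ∑ α, algebraMap (ZMod p) K (c l α) *
          mon D (pt (tmpl root r a0 i0 t δ.1 δ.2) x) α i = 0) with hBd
  have hsub : Bad ⊆ Finset.univ.biUnion Bd := by
    intro c hc
    rw [hBad, Finset.mem_filter] at hc
    choose y hy hy0 using hc.2
    obtain ⟨ρ, Sel, h1, h2, x, h3, h4⟩ := exists_data T root hbal hD σ hσ r a0 i0 ha0 t ht c y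
      hy hy0
    rw [Finset.mem_biUnion]
    refine ⟨(ρ, Sel), Finset.mem_univ _, ?_⟩
    rw [hBd, Finset.mem_filter]
    exact ⟨Finset.mem_univ _, ⟨h1, h2⟩, x, h3, h4⟩
  have hp0 : 0 < p := (Fact.out : p.Prime).pos
  have h1 : ∀ δ, p ^ s * (Bd δ).card ≤ C0 * Fintype.card (Par D d v p) := by
    intro δ
    by_cases hδ : (kF root d a0 i0 δ.1).card + s ≤ v * δ.2.card ∧ δ.2.card ≤ D + 1
    swap
    · have : Bd δ = ∅ := by
        rw [Finset.eq_empty_iff_forall_notMem]
        intro c hc
        rw [hBd, Finset.mem_filter] at hc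
        exact hδ hc.2.1
      rw [this]
      simp
    · have h2 := temp_count (K := K) (D := D) (v := v) (p := p) (by rw [Fintype.card_coe]; exact hδ.2)
        (tmpl root r a0 i0 t δ.1 δ.2) (Bd δ) (by
          intro c hc
          rw [hBd, Finset.mem_filter] at hc
          exact hc.2.2)
      rw [Fintype.card_coe, Fintype.card_coe] at h2
      have h3 : cT D v (Fintype.card (Fin d ⊕ Fin d)) δ.2.card (kF root d a0 i0 δ.1).card ≤ C0 :=
        cT_mono (Finset.card_le_univ _) (Finset.card_le_univ _)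
      have h4 : p ^ s * (Bd δ).card * p ^ (v * δ.2.card) ≤
          C0 * Fintype.card (Par D d v p) * p ^ (v * δ.2.card) := by
        calc p ^ s * (Bd δ).card * p ^ (v * δ.2.card) =
              p ^ s * ((Bd δ).card * p ^ (v * δ.2.card)) := by ring
          _ ≤ p ^ s * (cT D v (Fintype.card (Fin d ⊕ Fin d)) δ.2.card
                (kF root d a0 i0 δ.1).card * p ^ (kF root d a0 i0 δ.1).card *
                Fintype.card (Par D d v p)) := Nat.mul_le_mul_left _ h2
          _ ≤ p ^ s * (C0 * p ^ (kF root d a0 i0 δ.1).card * Fintype.card (Par D d v p)) := by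
              apply Nat.mul_le_mul_left
              apply Nat.mul_le_mul_right
              exact Nat.mul_le_mul_right _ h3
          _ = C0 * Fintype.card (Par D d v p) * p ^ ((kF root d a0 i0 δ.1).card + s) := by
              rw [pow_add]; ring
          _ ≤ C0 * Fintype.card (Par D d v p) * p ^ (v * δ.2.card) :=
              Nat.mul_le_mul_left _ (Nat.pow_le_pow_right hp0 hδ.1)
      exact Nat.le_of_mul_le_mul_right h4 (Nat.pow_pos hp0)
  calc p ^ s * Bad.card ≤ p ^ s * ∑ δ, (Bd δ).card :=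
        Nat.mul_le_mul_left _ ((Finset.card_le_card hsub).trans Finset.card_biUnion_le)
    _ = ∑ δ, p ^ s * (Bd δ).card := Finset.mul_sum _ _ _
    _ ≤ ∑ _δ : (Fin s × V → Fin s × V) × Finset (Fin s × (V × V)),
          C0 * Fintype.card (Par D d v p) := Finset.sum_le_sum (fun δ _ => h1 δ)
    _ = _ := by
        rw [Finset.sum_const, Finset.card_univ, smul_eq_mul]
        ring

end Pool.Agent.Helper97.RE
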