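import Mathlib

/-!
# The number of `F_p`-points in the image of a `k`-dimensional space
-/

set_option autoImplicit false
set_option linter.unusedSectionVars false

namespace Pool.Agent.Helper93.RE

open Finset MvPolynomial

section span
variable {κ S : Type} [Fintype κ] [DecidableEq κ] {K : Type} [Field K]

/-- the monomial functions -/
def mon (L : ℕ) (x : S → κ → K) (α : κ → Fin (L + 1)) : S → K :=
  fun c => ∏ i, (x c i) ^ (α i : ℕ)

theorem eval_mem_mon (L : ℕ) (x : S → κ → K) (f : MvPolynomial κ K)
    (hf : ∀ i, degreeOf i f ≤ L) :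
    (fun c => eval (x c) f) ∈ Submodule.span K (Set.range (mon L x)) := by
  classical
  have h1 : (fun c => eval (x c) f) =
      ∑ m ∈ f.support, (f.coeff m) • (fun c => ∏ i, (x c i) ^ (m i)) := by
    funext e
    rw [eval_eq']
    simp only [Finset.sum_apply, Pi.smul_apply, smul_eq_mul]
  rw [h1]
  apply Submodule.sum_mem
  intro m hm
  apply Submodule.smul_mem
  apply Submodule.subset_span
  have hd : ∀ i, m i < L + 1 := fun i =>
    Nat.lt_succ_of_le ((degreeOf_le_iff.1 (hf i)) m hm)
  exact ⟨fun i => ⟨m i, hd i⟩, rfl⟩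

/-- if there are separating polynomials then the monomial functions span -/
theorem mon_span_top [Finite S] (L : ℕ) (x : S → κ → K)
    (h : ∀ c₀ : S, ∃ f : MvPolynomial κ K, (∀ i, degreeOf i f ≤ L) ∧ eval (x c₀) f ≠ 0 ∧
      ∀ c, c ≠ c₀ → eval (x c) f = 0) :
    Submodule.span K (Set.range (mon L x)) = ⊤ := by
  classical
  have : Fintype S := Fintype.ofFinite S
  rw [eq_top_iff]
  intro g _
  have hg : g = ∑ e : S, (g e) • (Pi.single e (1 : K) : S → K) := by
    funext e
    rw [Finset.sum_apply, Finset.sum_eq_single e]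
    · simp
    · intro b _ hb
      simp [Pi.single_eq_of_ne (Ne.symm hb)]
    · intro h; exact absurd (Finset.mem_univ _) h
  rw [hg]
  apply Submodule.sum_mem
  intro e _
  apply Submodule.smul_mem
  obtain ⟨f, hf1, hf2, hf3⟩ := h e
  have hs : (Pi.single e (1 : K) : S → K) = (eval (x e) f)⁻¹ • (fun c => eval (x c) f) := by
    funext e'
    by_cases h : e' = e
    · subst h
      simp [hf2]
    · rw [Pi.single_eq_of_ne h]
      simp [hf3 e' h]
  rw [hs]
  exact Submodule.smul_mem _ _ (eval_mem_mon L x f hf1)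

theorem card_le_of_span (L : ℕ) [Fintype S] (x : S → κ → K)
    (h : Submodule.span K (Set.range (mon L x)) = ⊤) :
    Fintype.card S ≤ (L + 1) ^ Fintype.card κ := by
  have h4 := finrank_range_le_card (R := K) (mon L x)
  rw [Set.finrank, h, finrank_top, Fintype.card_fun, Fintype.card_fin] at h4
  simpa using h4

open Classical in
/-- the linear polynomial separating `e` from `e₀` -/
noncomputable def sepPoly' (e₀ e : κ → K) : MvPolynomial κ K :=
  if h : ∃ i, e i ≠ e₀ i then X h.choose - C (e h.choose) else 1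

theorem sepPoly'_deg (e₀ e : κ → K) (i : κ) : degreeOf i (sepPoly' e₀ e) ≤ 1 := by
  unfold sepPoly'
  split_ifs with h
  · refine (degreeOf_sub_le _ _ _).trans ?_
    rw [degreeOf_C, degreeOf_X]
    split_ifs <;> simp
  · rw [degreeOf_one]; omega

theorem sepPoly'_self (e₀ e : κ → K) : eval e₀ (sepPoly' e₀ e) ≠ 0 := by
  unfold sepPoly'
  split_ifs with h
  · have := h.choose_spec
    simp only [map_sub, eval_X, eval_C]
    intro h0
    exact this (sub_eq_zero.1 h0).symm
  · simp

theorem sepPoly'_ne (e₀ e : κ → K) (h : e ≠ e₀) : eval e (sepPoly' e₀ e) = 0 := by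
  have h' : ∃ i, e i ≠ e₀ i := Function.ne_iff.1 h
  unfold sepPoly'
  rw [dif_pos h']
  simp

/-- distinct points, few of them -/
theorem span_of_injective [Fintype S] (L : ℕ) (x : S → κ → K) (hx : Function.Injective x)
    (hS : Fintype.card S ≤ L + 1) : Submodule.span K (Set.range (mon L x)) = ⊤ := by
  classical
  apply mon_span_top
  intro c₀
  refine ⟨∏ c ∈ Finset.univ.erase c₀, sepPoly' (x c₀) (x c), ?_, ?_, ?_⟩
  · intro i
    refine (degreeOf_prod_le i _ _).trans ?_
    calc ∑ c ∈ Finset.univ.erase c₀, degreeOf i (sepPoly' (x c₀) (x c)) ≤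
          ∑ c ∈ Finset.univ.erase c₀, 1 := Finset.sum_le_sum (fun e _ => sepPoly'_deg _ _ i)
      _ = (Finset.univ.erase c₀).card := by simp
      _ ≤ L := by
          rw [Finset.card_erase_of_mem (Finset.mem_univ _), Finset.card_univ]
          omega
  · rw [map_prod, Finset.prod_ne_zero_iff]
    intro e _
    exact sepPoly'_self _ _
  · intro c hc
    rw [map_prod]
    exact Finset.prod_eq_zero (Finset.mem_erase.2 ⟨hc, Finset.mem_univ _⟩)
      (sepPoly'_ne _ _ (fun h => hc (hx h)))

end span

section img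
variable {μ κ : Type} [Fintype μ] [DecidableEq μ] [Fintype κ] [DecidableEq κ] {p : ℕ}
  [Fact p.Prime] {K : Type} [Field K] [Algebra (ZMod p) K]

/-- the image of a rational map of degree `≤ δ` in `k` variables has at most
`(δ |μ| (p - 1) + 1) ^ k` points over `F_p` -/
theorem img_count (δ : ℕ) (Δ : MvPolynomial κ K) (g : μ → MvPolynomial κ K)
    (hΔ : Δ.totalDegree ≤ δ) (hg : ∀ i, (g i).totalDegree ≤ δ) (S : Finset (μ → ZMod p))
    (hS : ∀ c ∈ S, ∃ x : κ → K, eval x Δ ≠ 0 ∧
      ∀ i, eval x Δ * algebraMap (ZMod p) K (c i) = eval x (g i)) :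
    S.card ≤ (Fintype.card μ * ((p - 1) * δ) + 1) ^ Fintype.card κ := by
  classical
  choose x hx1 hx2 using hS
  have hp : p.Prime := Fact.out
  set L := Fintype.card μ * ((p - 1) * δ) with hL
  have hspan : Submodule.span K (Set.range (mon L (fun c : S => x c.1 c.2))) = ⊤ := by
    apply mon_span_top
    intro c₀
    refine ⟨∏ i : μ, (Δ ^ (p - 1) - (g i - C (algebraMap (ZMod p) K (c₀.1 i)) * Δ) ^ (p - 1)),
      ?_, ?_, ?_⟩
    · intro j
      refine (degreeOf_le_totalDegree _ _).trans ?_
      refine (totalDegree_finsetProd _ _).trans ?_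
      calc ∑ i : μ, (Δ ^ (p - 1) - (g i - C (algebraMap (ZMod p) K (c₀.1 i)) * Δ) ^ (p - 1)).totalDegree
          ≤ ∑ i : μ, (p - 1) * δ := by
            apply Finset.sum_le_sum
            intro i _
            refine (totalDegree_sub _ _).trans ?_
            apply max_le
            · exact (totalDegree_pow _ _).trans (Nat.mul_le_mul_left _ hΔ)
            · refine (totalDegree_pow _ _).trans (Nat.mul_le_mul_left _ ?_)
              refine (totalDegree_sub _ _).trans (max_le (hg i) ?_)
              refine (totalDegree_mul _ _).trans ?_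
              rw [totalDegree_C, zero_add]
              exact hΔ
        _ = L := by rw [Finset.sum_const, Finset.card_univ, smul_eq_mul]
    · rw [map_prod, Finset.prod_ne_zero_iff]
      intro i _
      rw [map_sub, map_pow, map_pow, map_sub, map_mul, eval_C, ← hx2 c₀.1 c₀.2 i]
      rw [mul_comm (algebraMap (ZMod p) K (c₀.1 i)), sub_self, zero_pow, sub_zero]
      · exact pow_ne_zero _ (hx1 c₀.1 c₀.2)
      · have := hp.two_le; omega
    · intro c hc
      rw [map_prod]
      have hne : c.1 ≠ c₀.1 := fun h => hc (Subtype.ext h)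
      obtain ⟨i, hi⟩ := Function.ne_iff.1 hne
      apply Finset.prod_eq_zero (Finset.mem_univ i)
      rw [map_sub, map_pow, map_pow, map_sub, map_mul, eval_C, ← hx2 c.1 c.2 i]
      have h1 : eval (x c.1 c.2) Δ * algebraMap (ZMod p) K (c.1 i) -
          algebraMap (ZMod p) K (c₀.1 i) * eval (x c.1 c.2) Δ =
          eval (x c.1 c.2) Δ * algebraMap (ZMod p) K (c.1 i - c₀.1 i) := by
        rw [map_sub]; ring
      rw [h1, mul_pow, ← map_pow (algebraMap (ZMod p) K),
        ZMod.pow_card_sub_one_eq_one (sub_ne_zero.2 hi), map_one, mul_one, sub_self]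
  have := card_le_of_span L (fun c : S => x c.1 c.2) hspan
  rwa [Fintype.card_coe] at this

end img

end Pool.Agent.Helper93.RE
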